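import Mathlib

/-!
# Determinantal defining ideals of numerical semigroups : definitions and graded preliminaries
-/

open MvPolynomial

namespace Q122.DetNS

variable (k : Type*) [Field k] {ι : Type*}

/-- The `k`-algebra homomorphism `k[X_i] → k[t]`, `X_i ↦ t ^ (a i)`. -/
noncomputable def phi (a : ι → ℕ) : MvPolynomial ι k →ₐ[k] Polynomial k :=
  aeval (fun i => (Polynomial.X : Polynomial k) ^ a i)

/-- The defining ideal: the kernel of `phi`. -/
noncomputable def IH (a : ι → ℕ) : Ideal (MvPolynomial ι k) :=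
  RingHom.ker (phi k a)

variable {k}

/-- The ideal generated by the `2 × 2` minors of the matrix with rows `f` and `g`. -/
noncomputable def I2 {κ : Type*} (f g : κ → MvPolynomial ι k) : Ideal (MvPolynomial ι k) :=
  Ideal.span {p | ∃ i j, p = f i * g j - f j * g i}

theorem I2_eq_range {κ : Type*} (f g : κ → MvPolynomial ι k) :
    I2 f g = Ideal.span (Set.range (fun s : κ × κ => f s.1 * g s.2 - f s.2 * g s.1)) := by
  unfold I2
  congr 1
  ext p
  constructor
  · rintro ⟨i, j, rfl⟩
    exact ⟨(i, j), rfl⟩
  · rintro ⟨⟨i, j⟩, rfl⟩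
    exact ⟨i, j, rfl⟩

variable [Fintype ι] (a : ι → ℕ)

theorem phi_of_homog {p : MvPolynomial ι k} {d : ℕ} (hp : IsWeightedHomogeneous a p d) :
    phi k a p = Polynomial.C (eval 1 p) * Polynomial.X ^ d := by
  classical
  unfold phi
  rw [aeval_def, eval₂_eq', eval_eq', map_sum, Finset.sum_mul]
  refine Finset.sum_congr rfl ?_
  intro u hu
  have hw : Finsupp.weight a u = d := hp (mem_support_iff.mp hu)
  have h1 : ∏ i, ((Polynomial.X : Polynomial k) ^ a i) ^ u i = Polynomial.X ^ d := by
    rw [← hw, Finsupp.weight_apply, Finsupp.sum_fintype _ _ (by simp)]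
    rw [← Finset.prod_pow_eq_pow_sum]
    refine Finset.prod_congr rfl ?_
    intro i _
    rw [← pow_mul, smul_eq_mul, mul_comm]
  rw [h1]
  simp [Polynomial.C_eq_algebraMap]

theorem mem_IH_iff {p : MvPolynomial ι k} {d : ℕ} (hp : IsWeightedHomogeneous a p d) :
    p ∈ IH k a ↔ eval 1 p = 0 := by
  unfold IH
  rw [RingHom.mem_ker, phi_of_homog a hp]
  constructor
  · intro h
    have := (mul_eq_zero.mp h).resolve_right (pow_ne_zero _ Polynomial.X_ne_zero)
    exact Polynomial.C_eq_zero.mp this
  · intro h
    rw [h]; simp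

theorem monomial_sub_mem {u v : ι →₀ ℕ} {d : ℕ} (hu : Finsupp.weight a u = d)
    (hv : Finsupp.weight a v = d) :
    (monomial u (1 : k) - monomial v 1) ∈ IH k a := by
  have h1 : IsWeightedHomogeneous a (monomial u (1 : k)) d := isWeightedHomogeneous_monomial _ _ _ hu
  have h2 : IsWeightedHomogeneous a (monomial v (1 : k)) d := isWeightedHomogeneous_monomial _ _ _ hv
  rw [mem_IH_iff a (h1.sub h2)]
  simp [eval_monomial]

/-- Degree `d` part of an element of an ideal generated by homogeneous elements. -/
theorem comp_span {κ : Type*} [Fintype κ] (r : κ → MvPolynomial ι k) (e : κ → ℕ)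
    (hr : ∀ s, IsWeightedHomogeneous a (r s) (e s)) {p : MvPolynomial ι k} {d : ℕ}
    (hp : IsWeightedHomogeneous a p d) (hmem : p ∈ Ideal.span (Set.range r)) :
    ∃ c : κ → MvPolynomial ι k, p = ∑ s, c s * r s ∧
      ∀ s, (c s = 0) ∨ (e s ≤ d ∧ IsWeightedHomogeneous a (c s) (d - e s)) := by
  classical
  obtain ⟨c, hc⟩ := (Ideal.mem_span_range_iff_exists_fun).mp hmem
  let := weightedGradedAlgebra k a
  refine ⟨fun s => if e s ≤ d then weightedHomogeneousComponent a (d - e s) (c s) else 0, ?_, ?_⟩
  · have h1 : weightedHomogeneousComponent a d p = p := hp.weightedHomogeneousComponent_same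
    rw [← h1, ← hc, map_sum]
    refine Finset.sum_congr rfl ?_
    intro s _
    have h2 := DirectSum.coe_decompose_mul_of_right_mem (𝒜 := weightedHomogeneousSubmodule k a)
      (a := c s) (b := r s) (i := e s) d (hr s)
    have h3 : ∀ (q : MvPolynomial ι k) (m : ℕ),
        ((DirectSum.decompose (weightedHomogeneousSubmodule k a) q) m : MvPolynomial ι k)
          = weightedHomogeneousComponent a m q := by
      intro q m
      exact weightedDecomposition.decompose'_apply k a q m
    rw [h3, h3] at h2
    rw [h2]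
    by_cases h : e s ≤ d
    · simp only [h, if_true]
    · simp only [h, if_false, zero_mul]
  · intro s
    by_cases h : e s ≤ d
    · right
      refine ⟨h, ?_⟩
      simp only [h, if_true]
      exact weightedHomogeneousComponent_mem a (c s) (d - e s)
    · left
      simp [h]

/-- The ideal of the variables. -/
noncomputable def maxI : Ideal (MvPolynomial ι k) := Ideal.span (Set.range (X : ι → MvPolynomial ι k))

theorem mem_maxI {a : ι → ℕ} {p : MvPolynomial ι k} {d : ℕ} (hp : IsWeightedHomogeneous a p d)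
    (hd : 0 < d) : p ∈ (maxI : Ideal (MvPolynomial ι k)) := by
  classical
  unfold maxI
  rw [← Set.image_univ, mem_ideal_span_X_image]
  intro u hu
  have hw : Finsupp.weight a u = d := hp (mem_support_iff.mp hu)
  by_contra hcon
  push Not at hcon
  have : u = 0 := by
    ext i
    exact hcon i (Set.mem_univ i)
  rw [this] at hw
  simp at hw
  omega

theorem comp_span_mem {κ : Type*} [Fintype κ] (r : κ → MvPolynomial ι k) (e : κ → ℕ)
    (hr : ∀ s, IsWeightedHomogeneous a (r s) (e s)) {p : MvPolynomial ι k} {d : ℕ}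
    (hp : IsWeightedHomogeneous a p d) (hmem : p ∈ Ideal.span (Set.range r))
    {N : Ideal (MvPolynomial ι k)} (hN : ∀ s, e s ≤ d → r s ∈ N) : p ∈ N := by
  obtain ⟨c, hc, hc2⟩ := comp_span a r e hr hp hmem
  rw [hc]
  refine Ideal.sum_mem _ ?_
  intro s _
  rcases hc2 s with h | ⟨h, _⟩
  · rw [h, zero_mul]; exact N.zero_mem
  · exact N.mul_mem_left _ (hN s h)

end Q122.DetNS
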