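import Pool.Agent.Q122.DetNS.Basic

/-!
# Binomials, and a criterion for the determinantal presentation
-/

open MvPolynomial

namespace Q122.DetNS

variable {k : Type*} [Field k] {ι : Type*} [Fintype ι] {a : ι → ℕ}

theorem phi_monomial (u : ι →₀ ℕ) (c : k) :
    phi k a (monomial u c) = Polynomial.C c * Polynomial.X ^ (Finsupp.weight a u) := by
  rw [phi_of_homog a (isWeightedHomogeneous_monomial a u c rfl)]
  simp [eval_monomial]

/-- The defining ideal is generated by binomials. -/
theorem IH_le_of_binomials (I : Ideal (MvPolynomial ι k))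
    (h : ∀ u v : ι →₀ ℕ, Finsupp.weight a u = Finsupp.weight a v →
      (monomial u (1 : k) - monomial v 1) ∈ I) : IH k a ≤ I := by
  classical
  intro p hp
  have hphi : phi k a p = ∑ u ∈ p.support,
      Polynomial.C (coeff u p) * Polynomial.X ^ (Finsupp.weight a u) := by
    conv_lhs => rw [p.as_sum]
    rw [map_sum]
    refine Finset.sum_congr rfl ?_
    intro u _
    rw [phi_monomial]
  have hzero : phi k a p = 0 := hp
  have hcoef : ∀ d : ℕ, ∑ u ∈ p.support.filter (fun u => Finsupp.weight a u = d), coeff u p = 0 := by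
    intro d
    have h1 : (phi k a p).coeff d = 0 := by rw [hzero]; simp
    rw [hphi, Polynomial.finsetSum_coeff] at h1
    rw [Finset.sum_filter]
    refine (Finset.sum_congr rfl ?_).trans h1
    intro u _
    rw [Polynomial.coeff_C_mul_X_pow]
    by_cases hc : Finsupp.weight a u = d
    · rw [if_pos hc, if_pos hc.symm]
    · rw [if_neg hc, if_neg (fun h' => hc h'.symm)]
  have hq : ∀ u v : ι →₀ ℕ, Finsupp.weight a u = Finsupp.weight a v →
      Ideal.Quotient.mk I (monomial u (1:k)) = Ideal.Quotient.mk I (monomial v 1) := by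
    intro u v huv
    exact Ideal.Quotient.eq.mpr (h u v huv)
  rw [← Ideal.Quotient.eq_zero_iff_mem]
  have hp2 : Ideal.Quotient.mk I p = ∑ u ∈ p.support,
      Ideal.Quotient.mk I (C (coeff u p)) * Ideal.Quotient.mk I (monomial u 1) := by
    conv_lhs => rw [p.as_sum]
    rw [map_sum]
    refine Finset.sum_congr rfl ?_
    intro u _
    rw [← map_mul, C_mul_monomial, mul_one]
  rw [hp2, ← Finset.sum_fiberwise_of_maps_to (t := p.support.image (fun u => Finsupp.weight a u))
    (g := fun u => Finsupp.weight a u) (fun u hu => Finset.mem_image_of_mem _ hu)]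
  refine Finset.sum_eq_zero ?_
  intro d hd
  obtain ⟨u0, hu0, hd0⟩ := Finset.mem_image.mp hd
  have h2 : ∑ u ∈ p.support.filter (fun u => Finsupp.weight a u = d),
      Ideal.Quotient.mk I (C (coeff u p)) * Ideal.Quotient.mk I (monomial u 1) =
      ∑ u ∈ p.support.filter (fun u => Finsupp.weight a u = d),
      Ideal.Quotient.mk I (C (coeff u p)) * Ideal.Quotient.mk I (monomial u0 1) := by
    refine Finset.sum_congr rfl ?_
    intro u hu
    rw [hq u u0]
    rw [(Finset.mem_filter.mp hu).2]
    exact hd0.symm
  rw [h2, ← Finset.sum_mul, ← map_sum, ← map_sum, hcoef d]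
  simp

/-- One move: exchange of two relations. -/
def Move (l m : ι → ℕ) (π : Equiv.Perm ι) (u v : ι →₀ ℕ) : Prop :=
  ∃ (i j : ι) (r : ι →₀ ℕ),
    u = Finsupp.single (π i) (l (π i)) + Finsupp.single j (m j) + r ∧
    v = Finsupp.single (π j) (l (π j)) + Finsupp.single i (m i) + r

/-- Chains of moves. -/
def Chain (l m : ι → ℕ) (π : Equiv.Perm ι) (u v : ι →₀ ℕ) : Prop :=
  Relation.ReflTransGen (Move l m π) u v

section chain

variable {l m : ι → ℕ} {π : Equiv.Perm ι}

theorem Move.symm {u v : ι →₀ ℕ} (h : Move l m π u v) : Move l m π v u := by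
  obtain ⟨i, j, r, hu, hv⟩ := h
  exact ⟨j, i, r, hv, hu⟩

theorem Chain.symm {u v : ι →₀ ℕ} (h : Chain l m π u v) : Chain l m π v u := by
  unfold Chain at h ⊢
  induction h with
  | refl => exact Relation.ReflTransGen.refl
  | tail _ hm ih => exact Relation.ReflTransGen.head hm.symm ih

theorem Chain.mem {u v : ι →₀ ℕ} (h : Chain l m π u v) :
    (monomial u (1 : k) - monomial v 1) ∈
      I2 (fun i => (X (π i) : MvPolynomial ι k) ^ l (π i)) (fun i => X i ^ m i) := by
  induction h with
  | refl => simp
  | tail _ hm ih =>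
    obtain ⟨i, j, r, rfl, rfl⟩ := hm
    rename_i b c _
    have h1 : (monomial (Finsupp.single (π i) (l (π i)) + Finsupp.single j (m j) + r) (1 : k)
        - monomial (Finsupp.single (π j) (l (π j)) + Finsupp.single i (m i) + r) 1) ∈
        I2 (fun i => (X (π i) : MvPolynomial ι k) ^ l (π i)) (fun i => X i ^ m i) := by
      have h2 : (monomial (Finsupp.single (π i) (l (π i)) + Finsupp.single j (m j) + r) (1 : k)
        - monomial (Finsupp.single (π j) (l (π j)) + Finsupp.single i (m i) + r) 1) =
        monomial r 1 * ((X (π i) : MvPolynomial ι k) ^ l (π i) * X j ^ m j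
          - X (π j) ^ l (π j) * X i ^ m i) := by
        simp only [X_pow_eq_monomial, monomial_mul, mul_sub, mul_one]
        congr 1
        · congr 1
          rw [add_comm]
        · congr 1
          rw [add_comm]
      rw [h2]
      refine Ideal.mul_mem_left _ _ (Ideal.subset_span ⟨i, j, rfl⟩)
    have := Ideal.add_mem _ ih h1
    simpa using this

/-- Two raises of one element are connected. -/
theorem raise_same [DecidableEq ι] {w : ι →₀ ℕ} {i j : ι} {r s : ι →₀ ℕ}
    (h1 : w = Finsupp.single i (m i) + r) (h2 : w = Finsupp.single j (m j) + s) :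
    Chain l m π (Finsupp.single (π i) (l (π i)) + r) (Finsupp.single (π j) (l (π j)) + s) := by
  by_cases hij : i = j
  · subst hij
    have : r = s := by
      rw [h1] at h2
      exact add_left_cancel h2
    rw [this]
    exact Relation.ReflTransGen.refl
  · -- `r` contains `m j • e_j`
    have hr : m j ≤ r j := by
      have h3 : w j = r j := by
        rw [h1, Finsupp.add_apply, Finsupp.single_apply, if_neg hij, zero_add]
      have h4 : w j = m j + s j := by
        rw [h2, Finsupp.add_apply, Finsupp.single_apply, if_pos rfl]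
      omega
    obtain ⟨t, ht⟩ : ∃ t, r = Finsupp.single j (m j) + t := by
      refine ⟨r - Finsupp.single j (m j), ?_⟩
      ext x
      simp only [Finsupp.add_apply, Finsupp.tsub_apply, Finsupp.single_apply]
      split_ifs with hx
      · subst hx; omega
      · omega
    have hs : s = Finsupp.single i (m i) + t := by
      have h5 : Finsupp.single j (m j) + s = Finsupp.single j (m j) + (Finsupp.single i (m i) + t) := by
        rw [← h2, h1, ht]
        abel
      exact add_left_cancel h5
    refine Relation.ReflTransGen.single ⟨i, j, t, ?_, ?_⟩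
    · rw [ht]; abel
    · rw [hs]; abel

theorem raise [DecidableEq ι] {w w' : ι →₀ ℕ} (h : Chain l m π w w') :
    ∀ {i j : ι} {r s : ι →₀ ℕ}, w = Finsupp.single i (m i) + r →
      w' = Finsupp.single j (m j) + s →
      Chain l m π (Finsupp.single (π i) (l (π i)) + r) (Finsupp.single (π j) (l (π j)) + s) := by
  unfold Chain at h
  induction h using Relation.ReflTransGen.head_induction_on with
  | refl =>
    intro i j r s h1 h2
    exact raise_same h1 h2
  | head hm _ ih =>
    intro i j r s h1 h2
    obtain ⟨i1, j1, q, hu, hv⟩ := hm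
    have hu' := hu
    rw [add_assoc, add_left_comm] at hu'
    have hv' := hv
    rw [add_assoc, add_left_comm] at hv'
    have e1 := raise_same (l := l) (m := m) (π := π) h1 hu'
    have e2 := ih hv' h2
    have e3 : Finsupp.single (π j1) (l (π j1)) + (Finsupp.single (π i1) (l (π i1)) + q) =
        Finsupp.single (π i1) (l (π i1)) + (Finsupp.single (π j1) (l (π j1)) + q) := by
      abel
    rw [e3] at e1
    exact Relation.ReflTransGen.trans e1 e2

end chain

/-- The weight as a sum. -/
theorem weight_eq_sum (u : ι →₀ ℕ) : Finsupp.weight a u = ∑ i, u i * a i := by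
  rw [Finsupp.weight_apply, Finsupp.sum_fintype _ _ (by simp)]
  simp [smul_eq_mul]

theorem weight_single' (i : ι) (c : ℕ) : Finsupp.weight a (Finsupp.single i c) = c * a i := by
  rw [Finsupp.weight_apply, Finsupp.sum_single_index (by simp)]
  simp [smul_eq_mul]

theorem chain_of_weight (ha : ∀ i, 0 < a i) (l m : ι → ℕ) (π : Equiv.Perm ι) (α : ℕ) (hα : 0 < α)
    (hl : ∀ i, 0 < l i)
    (hrel : ∀ i, m i * a i + α = l (π i) * a (π i))
    (hno : ¬ ∃ v : ι →₀ ℕ, Finsupp.weight a v + α = ∑ i, (l i - 1) * a i) :
    ∀ (d : ℕ) (u v : ι →₀ ℕ), Finsupp.weight a u = d → Finsupp.weight a v = d →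
      Chain l m π u v := by
  classical
  intro d
  induction d using Nat.strong_induction_on with
  | _ d ih =>
  intro u v hu hv
  -- splitting off an `l`-power
  have hsplit : ∀ (w : ι →₀ ℕ) (x : ι), l (π x) ≤ w (π x) →
      ∃ r, w = Finsupp.single (π x) (l (π x)) + r := by
    intro w x hx
    refine ⟨w - Finsupp.single (π x) (l (π x)), ?_⟩
    ext y
    simp only [Finsupp.add_apply, Finsupp.tsub_apply, Finsupp.single_apply]
    split_ifs with hy
    · subst hy; omega
    · omega
  -- elements without `l`-powers
  have hkey : ∀ w w' : ι →₀ ℕ, Finsupp.weight a w = Finsupp.weight a w' →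
      (∀ i, w i < l i) → w = w' := by
    intro w w' hww hlt
    -- the complement of `w`
    let c : ι →₀ ℕ := Finsupp.equivFunOnFinite.symm (fun i => l i - 1 - w i)
    have hc : ∀ i, w i + c i = l i - 1 := by
      intro i
      have := hlt i
      simp only [c, Finsupp.equivFunOnFinite_symm_apply_apply]
      omega
    let s : ι →₀ ℕ := w' + c
    have hs : Finsupp.weight a s = ∑ i, (l i - 1) * a i := by
      simp only [s, map_add]
      rw [← hww, ← map_add, weight_eq_sum]
      refine Finset.sum_congr rfl ?_
      intro i _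
      rw [Finsupp.add_apply, hc]
    have hs2 : ∀ i, s i ≤ l i - 1 := by
      intro i
      by_contra hcon
      push Not at hcon
      obtain ⟨x, rfl⟩ := π.surjective i
      have hlx := hl (π x)
      obtain ⟨r, hr⟩ := hsplit s x (by omega)
      apply hno
      refine ⟨Finsupp.single x (m x) + r, ?_⟩
      rw [← hs, hr, map_add, map_add, weight_single', weight_single', ← hrel x]
      ring
    have hs3 : ∀ i, s i = l i - 1 := by
      rw [weight_eq_sum] at hs
      have h1 : ∀ i ∈ Finset.univ, s i * a i ≤ (l i - 1) * a i := by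
        intro i _
        exact Nat.mul_le_mul_right _ (hs2 i)
      have h2 := (Finset.sum_eq_sum_iff_of_le h1).mp hs
      intro i
      exact Nat.eq_of_mul_eq_mul_right (ha i) (h2 i (Finset.mem_univ i))
    ext i
    have h1 := hs3 i
    have h2 := hc i
    simp only [s, Finsupp.add_apply] at h1
    omega
  by_cases hu1 : ∀ i, u i < l i
  · rw [hkey u v (hu.trans hv.symm) hu1]
    exact Relation.ReflTransGen.refl
  by_cases hv1 : ∀ i, v i < l i
  · rw [hkey v u (hv.trans hu.symm) hv1]
    exact Relation.ReflTransGen.refl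
  push Not at hu1 hv1
  obtain ⟨x', hx⟩ := hu1
  obtain ⟨y', hy⟩ := hv1
  obtain ⟨x, rfl⟩ := π.surjective x'
  obtain ⟨y, rfl⟩ := π.surjective y'
  obtain ⟨r, hr⟩ := hsplit u x hx
  obtain ⟨s, hs⟩ := hsplit v y hy
  have e1 : Finsupp.weight a (Finsupp.single x (m x) + r) + α = d := by
    rw [← hu, hr, map_add, map_add, weight_single', weight_single', ← hrel x]
    ring
  have e2 : Finsupp.weight a (Finsupp.single y (m y) + s) + α = d := by
    rw [← hv, hs, map_add, map_add, weight_single', weight_single', ← hrel y]
    ring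
  have h1 := ih (d - α) (by omega) (Finsupp.single x (m x) + r) (Finsupp.single y (m y) + s)
    (by omega) (by omega)
  have h2 := raise h1 rfl rfl
  rw [hr, hs]
  exact h2

theorem IH_eq_I2 (ha : ∀ i, 0 < a i) (l m : ι → ℕ) (π : Equiv.Perm ι) (α : ℕ) (hα : 0 < α)
    (hl : ∀ i, 0 < l i)
    (hrel : ∀ i, m i * a i + α = l (π i) * a (π i))
    (hno : ¬ ∃ v : ι →₀ ℕ, Finsupp.weight a v + α = ∑ i, (l i - 1) * a i) :
    IH k a = I2 (fun i => (X (π i) : MvPolynomial ι k) ^ l (π i)) (fun i => X i ^ m i) := by
  refine le_antisymm ?_ ?_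
  · refine IH_le_of_binomials _ ?_
    intro u v huv
    exact (chain_of_weight ha l m π α hα hl hrel hno _ u v rfl huv.symm).mem
  · unfold I2
    rw [Ideal.span_le]
    rintro p ⟨i, j, rfl⟩
    simp only [X_pow_eq_monomial, monomial_mul, mul_one]
    refine monomial_sub_mem a (d := l (π i) * a (π i) + m j * a j) ?_ ?_
    · rw [map_add, weight_single', weight_single']
    · rw [map_add, weight_single', weight_single', ← hrel i, ← hrel j]
      ring

end Q122.DetNS
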