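import Pool.Agent.Q122.DetNS.Semi

/-!
# The case where `x, x + α ∈ H` implies `x + 2 α ∈ H`
-/

open MvPolynomial

namespace Q122.DetNS

section

variable {n : ℕ} {a : Fin n → ℕ} {h α : ℤ}

/-- Minimal elements of `{x ∈ H : x + α ∈ H}`. -/
def MinA {n : ℕ} (a : Fin n → ℕ) (α : ℤ) (c : ℤ) : Prop :=
  (InH a c ∧ InH a (c + α)) ∧ ∀ i, InH a (c - a i) → ¬ InH a (c - a i + α)

theorem exists_minA (hpos : ∀ i, 0 < a i) :
    ∀ (N : ℕ) (Y : ℤ), Y.toNat = N → InH a Y → InH a (Y + α) → ∃ c, MinA a α c ∧ InH a (Y - c) := by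
  intro N
  induction N using Nat.strong_induction_on with
  | _ N ih =>
  intro Y hY h1 h2
  by_cases hex : ∃ i, InH a (Y - a i) ∧ InH a (Y - a i + α)
  · obtain ⟨i, h3, h4⟩ := hex
    have h5 := h3.nonneg
    have h6 := h1.nonneg
    have h7 := hpos i
    obtain ⟨c, hc, hc2⟩ := ih (Y - a i).toNat (by omega) (Y - a i) rfl h3 h4
    refine ⟨c, hc, ?_⟩
    have e : Y - c = (Y - a i - c) + a i := by ring
    rw [e]
    exact hc2.add (InH.gen i)
  · push Not at hex
    exact ⟨Y, ⟨⟨h1, h2⟩, hex⟩, by rw [sub_self]; exact InH.zero⟩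

/-- An element whose only possible summand is `a κ` is a multiple of `a κ`. -/
theorem single_supp {z : ℤ} {κ : Fin n} (hz : InH a z) (hz0 : 0 < z)
    (hs : ∀ x, InH a (z - a x) → x = κ) : ∃ μ : ℕ, 0 < μ ∧ z = (μ : ℤ) * a κ := by
  classical
  obtain ⟨v, hv⟩ := hz
  have h1 : ∀ x, x ≠ κ → v x = 0 := by
    intro x hx
    by_contra hcon
    apply hx
    apply hs x
    refine ⟨fun y => v y - (if y = x then 1 else 0), ?_⟩
    have : ∀ y, ((v y - (if y = x then 1 else 0) : ℕ) : ℤ) * a y =
        (v y : ℤ) * a y - (if y = x then (a x : ℤ) else 0) := by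
      intro y
      by_cases hy : y = x
      · subst hy
        have h1 : 1 ≤ v y := Nat.one_le_iff_ne_zero.mpr hcon
        simp only [if_true]; push_cast [h1]; ring
      · simp [hy]
    simp only [this, Finset.sum_sub_distrib]
    rw [← hv]; simp
  have h2 : z = (v κ : ℤ) * a κ := by
    rw [hv, Finset.sum_eq_single κ]
    · intro x _ hx
      simp [h1 x hx]
    · simp
  refine ⟨v κ, ?_, h2⟩
  rcases Nat.eq_zero_or_pos (v κ) with h3 | h3
  · rw [h3] at h2; simp at h2; omega
  · exact h3

/-- A chain of minimal elements together with chosen summands. -/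
structure ChainData (a : Fin n → ℕ) (α : ℤ) where
  c : ℕ → ℤ
  κ : ℕ → Fin n
  hmin : ∀ j, MinA a α (c j)
  hstep : ∀ j, InH a (c j + α - c (j + 1))
  hκ : ∀ j, InH a (c j - a (κ j))

namespace ChainData

variable (D : ChainData a α)

theorem sum (i e : ℕ) : InH a (D.c i + e * α - D.c (i + e)) := by
  induction e with
  | zero => simpa using InH.zero
  | succ e ih =>
    have h1 := ih.add (D.hstep (i + e))
    have e1 : D.c i + ((e + 1 : ℕ) : ℤ) * α - D.c (i + (e + 1)) =
        D.c i + e * α - D.c (i + e) + (D.c (i + e) + α - D.c (i + e + 1)) := by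
      push_cast
      rw [← add_assoc i e 1]
      ring
    rw [e1]
    exact h1

variable (hAP : IsAP a h α) (hg : Finset.univ.gcd a = 1)
include hAP hg

theorem dead {i : ℕ} {x : Fin n} (hx : InH a (D.c i - a x)) {e : ℕ} (h1 : 1 ≤ e) (h2 : e < n) :
    ¬ InH a (D.c i + e * α - a x) := by
  have h3 := hAP.gap hg hx ((D.hmin i).2 x hx) h1 h2
  have e1 : D.c i + e * α - a x = D.c i - a x + e * α := by ring
  rw [e1]
  exact h3

theorem later {i e : ℕ} {x : Fin n} (hx : InH a (D.c (i + e) - a x)) :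
    InH a (D.c i + e * α - a x) := by
  have h1 := (D.sum i e).add hx
  have e1 : D.c i + e * α - D.c (i + e) + (D.c (i + e) - a x) = D.c i + e * α - a x := by ring
  rw [← e1]
  exact h1

theorem ne {i e : ℕ} (h1 : 1 ≤ e) (h2 : e < n) : D.κ i ≠ D.κ (i + e) := by
  intro hcon
  apply D.dead hAP hg (D.hκ i) h1 h2
  rw [hcon]
  exact D.later hAP hg (D.hκ (i + e))

theorem surj (i : ℕ) (x : Fin n) : ∃ e, e < n ∧ D.κ (i + e) = x := by
  have hinj : Function.Injective (fun e : Fin n => D.κ (i + e)) := by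
    intro e e' hee
    by_contra hne
    have hne' : (e : ℕ) ≠ e' := fun hh => hne (Fin.ext hh)
    rcases lt_or_gt_of_ne hne' with hlt | hlt
    · have := D.ne hAP hg (i := i + e) (e := e' - e) (by omega) (by omega)
      rw [show i + (e : ℕ) + ((e' : ℕ) - e) = i + e' by omega] at this
      exact this hee
    · have := D.ne hAP hg (i := i + e') (e := e - e') (by omega) (by omega)
      rw [show i + (e' : ℕ) + ((e : ℕ) - e') = i + e by omega] at this
      exact this hee.symm
  have hsurj := Finite.injective_iff_surjective.mp hinj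
  obtain ⟨e, he⟩ := hsurj x
  exact ⟨e, e.2, he⟩

theorem unique {i : ℕ} {x : Fin n} (hx : InH a (D.c i - a x)) : x = D.κ i := by
  obtain ⟨e, he, hex⟩ := D.surj hAP hg i x
  rcases Nat.eq_zero_or_pos e with h0 | h0
  · subst h0; exact hex.symm
  · exfalso
    apply D.dead hAP hg hx h0 he
    rw [← hex]
    exact D.later hAP hg (D.hκ (i + e))

theorem unique_succ {i : ℕ} {x : Fin n} (hi : n ≤ i + 1) (hn : 2 ≤ n)
    (hx : InH a (D.c i + α - a x)) : x = D.κ (i + 1) := by
  obtain ⟨e, he, hex⟩ := D.surj hAP hg (i + 2 - n) x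
  by_cases h1 : e = n - 1
  · rw [← hex]
    congr 1
    omega
  · exfalso
    -- `x = κ j` with `j = i + 2 - n + e ≤ i`
    have hj : i + 2 - n + e ≤ i := by omega
    have h2 := D.sum (i + 2 - n + e) (i - (i + 2 - n + e))
    rw [show i + 2 - n + e + (i - (i + 2 - n + e)) = i by omega] at h2
    have h3 := h2.add hx
    have h4 := D.dead hAP hg (D.hκ (i + 2 - n + e)) (e := i - (i + 2 - n + e) + 1) (by omega)
      (by omega)
    apply h4
    rw [hex]
    have e1 : D.c (i + 2 - n + e) + ((i - (i + 2 - n + e) + 1 : ℕ) : ℤ) * α - a x =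
        D.c (i + 2 - n + e) + ((i - (i + 2 - n + e) : ℕ) : ℤ) * α - D.c i + (D.c i + α - a x) := by
      push_cast; ring
    rw [e1]
    exact h3

end ChainData

theorem exists_chain (hpos : ∀ i, 0 < a i) (hα0 : ¬ InH a α)
    (hZ : ∀ x, InH a x → InH a (x + α) → InH a (x + 2 * α)) {c0 : ℤ} (hc0 : MinA a α c0) :
    ∃ D : ChainData a α, D.c 0 = c0 := by
  have hnext : ∀ c : {c // MinA a α c}, ∃ c' : {c // MinA a α c}, InH a (c.1 + α - c'.1) := by
    rintro ⟨c, hc⟩
    obtain ⟨c', h1, h2⟩ := exists_minA hpos (α := α) _ (c + α) rfl hc.1.2 (by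
      have := hZ c hc.1.1 hc.1.2
      have e : c + α + α = c + 2 * α := by ring
      rw [e]; exact this)
    exact ⟨⟨c', h1⟩, h2⟩
  choose nx hnx using hnext
  have hne : ∀ c : {c // MinA a α c}, ∃ x, InH a (c.1 - a x) := by
    rintro ⟨c, hc⟩
    refine exists_sub hc.1.1 ?_
    rintro rfl
    apply hα0
    simpa using hc.1.2
  choose κ hκ using hne
  let s : ℕ → {c // MinA a α c} := fun j => nx^[j] ⟨c0, hc0⟩
  refine ⟨⟨fun j => (s j).1, fun j => κ (s j), fun j => (s j).2, ?_, fun j => hκ (s j)⟩, rfl⟩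
  intro j
  have : s (j + 1) = nx (s j) := by
    simp only [s, Function.iterate_succ_apply']
  rw [this]
  exact hnx (s j)

end

theorem caseC {n : ℕ} {a : Fin n → ℕ} {h α : ℤ} (hn : 3 ≤ n) (ha : IsMinGen a)
    (hAP : IsAP a h α) (hZ : ∀ x, InH a x → InH a (x + α) → InH a (x + 2 * α))
    (k : Type*) [Field k] : Cond2 k a := by
  classical
  obtain ⟨hg, hmin⟩ := ha
  have hpos : ∀ i, 0 < a i := fun i => (hmin i).1
  have hα : 0 < α := hAP.1
  have hα0 := hAP.alpha_not hn
  obtain ⟨N, hN⟩ := exists_large hg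
  obtain ⟨c0, hc0, _⟩ := exists_minA hpos (α := α) _ N rfl (hN N le_rfl) (hN (N + α) (by linarith))
  obtain ⟨D, hD⟩ := exists_chain hpos hα0 hZ hc0
  have hcpos : ∀ j, 0 < D.c j := by
    intro j
    have h1 := (D.hmin j).1.1.nonneg
    rcases lt_or_eq_of_le h1 with h2 | h2
    · exact h2
    · exfalso; apply hα0
      have := (D.hmin j).1.2
      rw [← h2] at this
      simpa using this
  -- indices
  have hJ : ∀ x, ∃ j, n - 1 ≤ j ∧ j < 2 * n - 1 ∧ D.κ j = x := by
    intro x
    obtain ⟨e, he, hex⟩ := D.surj hAP hg (n - 1) x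
    exact ⟨n - 1 + e, by omega, by omega, hex⟩
  choose J hJ1 hJ2 hJ3 using hJ
  -- pure powers
  have hpow : ∀ x, ∃ μ : ℕ, 0 < μ ∧ D.c (J x) = (μ : ℤ) * a x := by
    intro x
    refine single_supp (D.hmin _).1.1 (hcpos _) ?_
    intro y hy
    rw [D.unique hAP hg hy, hJ3]
  choose m hm1 hm2 using hpow
  have hpow2 : ∀ x, ∃ μ : ℕ, 0 < μ ∧ D.c (J x) + α = (μ : ℤ) * a (D.κ (J x + 1)) := by
    intro x
    refine single_supp (D.hmin _).1.2 (by linarith [hcpos (J x)]) ?_
    intro y hy
    exact D.unique_succ hAP hg (by have := hJ1 x; omega) (by omega) hy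
  choose l' hl1 hl2 using hpow2
  have hinj : Function.Injective (fun x => D.κ (J x + 1)) := by
    intro x y hxy
    by_contra hne
    have hJne : J x ≠ J y := by
      intro hh
      apply hne
      rw [← hJ3 x, ← hJ3 y, hh]
    have b1 := hJ1 x
    have b2 := hJ2 x
    have b3 := hJ1 y
    have b4 := hJ2 y
    rcases lt_or_gt_of_ne hJne with hlt | hlt
    · have := D.ne hAP hg (i := J x + 1) (e := J y - J x) (by omega) (by omega)
      rw [show J x + 1 + (J y - J x) = J y + 1 by omega] at this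
      exact this hxy
    · have := D.ne hAP hg (i := J y + 1) (e := J x - J y) (by omega) (by omega)
      rw [show J y + 1 + (J x - J y) = J x + 1 by omega] at this
      exact this hxy.symm
  have hbij : Function.Bijective (fun x => D.κ (J x + 1)) :=
    ⟨hinj, Finite.injective_iff_surjective.mp hinj⟩
  let π : Equiv.Perm (Fin n) := Equiv.ofBijective _ hbij
  have hrel : ∀ x, (m x : ℤ) * a x + α = (l' x : ℤ) * a (π x) := by
    intro x
    rw [← hm2 x]
    exact hl2 x
  -- minimality of `m x`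
  have hmmin : ∀ (x : Fin n) (w : ℕ), w + 1 ≤ m x → ¬ InH a ((w : ℤ) * a x + α) := by
    intro x w hw hcon
    have h1 := D.hmin (J x)
    have e1 : D.c (J x) - a x = ((m x - 1 : ℕ) : ℤ) * a x := by
      rw [hm2 x]; push_cast [hm1 x]; ring
    have h2 := h1.2 x (by rw [e1]; exact InH.smul _ _)
    apply h2
    have e2 : D.c (J x) - a x + α = ((w : ℤ) * a x + α) + ((m x - 1 - w : ℕ) : ℤ) * a x := by
      rw [e1]
      have : ((m x - 1 - w : ℕ) : ℤ) = ((m x - 1 : ℕ) : ℤ) - w := by
        push_cast [show w ≤ m x - 1 by omega]; ring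
      rw [this]; ring
    rw [e2]
    exact hcon.add (InH.smul _ _)
  refine finish (by omega) hpos hα (fun j => l' (π.symm j)) m π (fun j => hl1 _) hm1 ?_ ?_
  · intro i
    have e : π.symm (π i) = i := π.symm_apply_apply i
    simp only [e]
    exact hrel i
  · -- `V = ∑ (m_i - 1) a_i` satisfies `V + α ∉ H`
    have hVH : InH a (∑ i, ((m i : ℤ) - 1) * a i) := by
      refine InH.sum _ _ (fun i _ => ?_)
      have e : ((m i : ℤ) - 1) * a i = ((m i - 1 : ℕ) : ℤ) * a i := by push_cast [hm1 i]; ring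
      rw [e]; exact InH.smul _ _
    have hV : ¬ InH a (∑ i, ((m i : ℤ) - 1) * a i + α) := by
      intro hcon
      -- minimal `w`
      have hex : ∃ N : ℕ, ∃ w : Fin n → ℕ, (∀ i, w i + 1 ≤ m i) ∧
          InH a (∑ i, (w i : ℤ) * a i + α) ∧ ∑ i, w i = N := by
        refine ⟨_, fun i => m i - 1, ?_, ?_, rfl⟩
        · intro i; have := hm1 i; change m i - 1 + 1 ≤ m i; omega
        · have e : ∑ i, ((m i - 1 : ℕ) : ℤ) * a i = ∑ i, ((m i : ℤ) - 1) * a i := by
            refine Finset.sum_congr rfl ?_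
            intro i _
            push_cast [hm1 i]; ring
          rw [e]; exact hcon
      obtain ⟨w, hw1, hw2, hw3⟩ := Nat.find_spec hex
      have hwmin : ∀ x, 1 ≤ w x → InH a (∑ i, (w i : ℤ) * a i - a x) ∧
          ¬ InH a (∑ i, (w i : ℤ) * a i - a x + α) := by
        intro x hx
        have e1 : ∑ i, ((w i - (if i = x then 1 else 0) : ℕ) : ℤ) * a i =
            ∑ i, (w i : ℤ) * a i - a x := by
          have : ∀ i, ((w i - (if i = x then 1 else 0) : ℕ) : ℤ) * a i =
              (w i : ℤ) * a i - (if i = x then (a x : ℤ) else 0) := by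
            intro i
            by_cases hi : i = x
            · subst hi; simp only [if_true]; push_cast [hx]; ring
            · simp [hi]
          simp only [this, Finset.sum_sub_distrib]
          simp
        refine ⟨⟨_, e1.symm⟩, ?_⟩
        intro hc2
        have hlt : ∑ i, (w i - (if i = x then 1 else 0)) < ∑ i, w i := by
          refine Finset.sum_lt_sum ?_ ⟨x, Finset.mem_univ x, ?_⟩
          · intro i _; omega
          · simp only [if_true]; omega
        rw [hw3] at hlt
        refine Nat.find_min hex hlt ⟨_, ?_, ?_, rfl⟩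
        · intro i; have := hw1 i; omega
        · rw [e1]; exact hc2
      have hwH : InH a (∑ i, (w i : ℤ) * a i) := ⟨w, rfl⟩
      obtain ⟨c1, hc1, hc1'⟩ := exists_minA hpos (α := α) _ _ rfl hwH hw2
      obtain ⟨D', hD'⟩ := exists_chain hpos hα0 hZ hc1
      have hsup : ∀ x, 1 ≤ w x → x = D'.κ 0 := by
        intro x hx
        obtain ⟨e, he, hex'⟩ := D'.surj hAP hg 0 x
        rcases Nat.eq_zero_or_pos e with h0 | h0
        · subst h0; exact hex'.symm
        · exfalso
          obtain ⟨h1, h2⟩ := hwmin x hx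
          apply hAP.gap hg h1 h2 h0 he
          have h3 := D'.later hAP hg (i := 0) (e := e) (D'.hκ (0 + e))
          rw [hex', hD'] at h3
          have h4 := hc1'.add h3
          have e2 : ∑ i, (w i : ℤ) * a i - a x + e * α =
              ∑ i, (w i : ℤ) * a i - c1 + (c1 + e * α - a x) := by ring
          rw [e2]
          exact h4
      have hw0 : ∑ i, (w i : ℤ) * a i = (w (D'.κ 0) : ℤ) * a (D'.κ 0) := by
        rw [Finset.sum_eq_single (D'.κ 0)]
        · intro x _ hx
          have : ¬ 1 ≤ w x := fun hh => hx (hsup x hh)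
          have h0 : w x = 0 := by omega
          simp [h0]
        · simp
      rw [hw0] at hw2
      exact hmmin (D'.κ 0) (w (D'.κ 0)) (hw1 _) hw2
    exact hAP.gap hg hVH hV (by omega) (by omega)

end Q122.DetNS
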