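import Pool.Agent.Q122.DetNS.Core

/-!
# The conditions (1) and (2), and their equivalence
-/

open MvPolynomial

namespace Q122.DetNS

/-- Condition (1): the defining ideal of `⟨a_1, …, a_n⟩` is the ideal of `2 × 2` minors of a
`2 × n` matrix whose entries are homogeneous (for the grading `deg X_i = a_i`) of positive
degree. -/
def Cond1 (k : Type*) [Field k] {n : ℕ} (a : Fin n → ℕ) : Prop :=
  ∃ f g : Fin n → MvPolynomial (Fin n) k,
    (∀ i, ∃ d, 0 < d ∧ IsWeightedHomogeneous a (f i) d) ∧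
    (∀ i, ∃ d, 0 < d ∧ IsWeightedHomogeneous a (g i) d) ∧
    IH k a = I2 f g

/-- Condition (2): after a permutation `σ` of `a_1, …, a_n`, the defining ideal is the ideal of
`2 × 2` minors of the matrix with rows `X_1^{l_1}, …, X_n^{l_n}` and
`X_2^{m_2}, …, X_n^{m_n}, X_1^{m_1}` (`finRotate n` is the cyclic successor on `Fin n`). -/
def Cond2 (k : Type*) [Field k] {n : ℕ} (a : Fin n → ℕ) : Prop :=
  ∃ (σ : Equiv.Perm (Fin n)) (l m : Fin n → ℕ), (∀ i, 0 < l i) ∧ (∀ i, 0 < m i) ∧
    IH k (fun i => a (σ i)) =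
      I2 (fun i => X i ^ l i) (fun i => X (finRotate n i) ^ m (finRotate n i))

section transport

variable {k : Type*} [Field k] {ι : Type*}

theorem IH_comp (a : ι → ℕ) (σ : Equiv.Perm ι) :
    IH k (fun i => a (σ i)) =
      Ideal.comap (renameEquiv k σ : MvPolynomial ι k ≃ₐ[k] MvPolynomial ι k) (IH k a) := by
  ext p
  unfold IH
  rw [Ideal.mem_comap, RingHom.mem_ker, RingHom.mem_ker]
  unfold phi
  rw [renameEquiv_apply, aeval_rename]
  rfl

theorem map_I2 {κ : Type*} (e : MvPolynomial ι k ≃ₐ[k] MvPolynomial ι k)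
    (F G : κ → MvPolynomial ι k) :
    Ideal.map e (I2 F G) = I2 (fun i => e (F i)) (fun i => e (G i)) := by
  unfold I2
  rw [Ideal.map_span]
  congr 1
  ext p
  constructor
  · rintro ⟨q, ⟨i, j, rfl⟩, rfl⟩
    exact ⟨i, j, by simp⟩
  · rintro ⟨i, j, rfl⟩
    exact ⟨_, ⟨i, j, rfl⟩, by simp⟩

theorem transport {κ : Type*} (a : ι → ℕ) (σ : Equiv.Perm ι) (F G : κ → MvPolynomial ι k) :
    IH k (fun i => a (σ i)) = I2 F G ↔
      IH k a = I2 (fun i => renameEquiv k σ (F i)) (fun i => renameEquiv k σ (G i)) := by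
  rw [IH_comp, ← map_I2]
  constructor
  · intro h
    rw [← h, Ideal.map_comap_of_surjective _ (renameEquiv k σ).surjective]
  · intro h
    rw [h, Ideal.comap_map_of_bijective _ (renameEquiv k σ).bijective]

/-- Reindexing the columns. -/
theorem I2_reindex {κ κ' : Type*} (e : κ ≃ κ') (f g : κ' → MvPolynomial ι k) :
    I2 (fun i => f (e i)) (fun i => g (e i)) = I2 f g := by
  unfold I2
  congr 1
  ext p
  constructor
  · rintro ⟨i, j, rfl⟩
    exact ⟨e i, e j, rfl⟩
  · rintro ⟨i, j, rfl⟩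
    exact ⟨e.symm i, e.symm j, by simp⟩

end transport

/-- A permutation of `Fin n`, `2 ≤ n`, without proper invariant subsets is conjugate to the
rotation. -/
theorem exists_conj {n : ℕ} (hn : 2 ≤ n) (π : Equiv.Perm (Fin n))
    (h : ∀ (K : Set (Fin n)), (∀ i, i ∈ K ↔ π i ∈ K) → ∀ i0 j0, i0 ∈ K → j0 ∈ K) :
    ∃ c : Equiv.Perm (Fin n), ∀ i, π (c (finRotate n i)) = c i := by
  classical
  have hfix : ∀ x, π x ≠ x := by
    intro x hx
    have h1 := h {x} (by
      intro i
      constructor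
      · intro hi
        rw [Set.mem_singleton_iff] at hi
        rw [hi, hx]
        exact Set.mem_singleton x
      · intro hi
        rw [Set.mem_singleton_iff] at hi
        rw [Set.mem_singleton_iff]
        exact π.injective (hi.trans hx.symm))
    have hs : ∀ y, y = x := fun y => h1 x y (Set.mem_singleton x)
    have e1 := hs ⟨0, by omega⟩
    have e2 := hs ⟨1, by omega⟩
    have := e1.trans e2.symm
    simp at this
  have hcyc : π.IsCycle := by
    refine ⟨⟨0, by omega⟩, hfix _, ?_⟩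
    intro y _
    have h1 := h {y | Equiv.Perm.SameCycle π ⟨0, by omega⟩ y} (by
      intro i
      simp only [Set.mem_setOf_eq]
      exact Equiv.Perm.sameCycle_apply_right.symm)
    exact h1 ⟨0, by omega⟩ y (Equiv.Perm.SameCycle.refl _ _)
  have hsupp : π.support = Finset.univ := by
    ext x
    simp [hfix x]
  have htype : π⁻¹.cycleType = {n} := by
    rw [Equiv.Perm.cycleType_inv, hcyc.cycleType, hsupp]
    simp
  have hconj : IsConj (finRotate n) π⁻¹ := by
    refine Equiv.Perm.isConj_of_cycleType_eq ?_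
    rw [htype, cycleType_finRotate_of_le hn]
  obtain ⟨c, hc⟩ := isConj_iff.mp hconj
  refine ⟨c, ?_⟩
  intro i
  have h1 : π⁻¹ (c i) = c (finRotate n i) := by
    rw [← hc]; simp
  rw [← h1]; simp

theorem cond2_of_form {k : Type*} [Field k] {n : ℕ} (hn : 2 ≤ n) {a : Fin n → ℕ}
    (ha : ∀ i, 0 < a i) (l m : Fin n → ℕ) (π : Equiv.Perm (Fin n))
    (hl : ∀ i, 0 < l i) (hm : ∀ i, 0 < m i)
    (hI : IH k a = I2 (fun i => (X (π i) : MvPolynomial (Fin n) k) ^ l (π i)) (fun i => X i ^ m i)) :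
    Cond2 k a := by
  obtain ⟨c, hc⟩ := exists_conj hn π (fun K hK i0 j0 hi0 =>
    no_invariant ha l m π hl hm hI K hK i0 j0 hi0)
  refine ⟨c, fun i => l (c i), fun i => m (c i), fun i => hl _, fun i => hm _, ?_⟩
  rw [transport, hI]
  have e1 := I2_reindex (k := k) ((finRotate n).trans c)
    (fun i => (X (π i) : MvPolynomial (Fin n) k) ^ l (π i)) (fun i => X i ^ m i)
  rw [← e1]
  congr 1
  · funext i
    simp only [Equiv.trans_apply, hc, map_pow, renameEquiv_apply, rename_X]
  · funext i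
    simp only [Equiv.trans_apply, map_pow, renameEquiv_apply, rename_X]

theorem cond1_imp_cond2 {k : Type*} [Field k] {n : ℕ} {a : Fin n → ℕ}
    (ha : ∀ i, 0 < a i) (h : Cond1 k a) : Cond2 k a := by
  obtain ⟨f, g, hf, hg, hI⟩ := h
  rcases Nat.lt_or_ge n 2 with hn | hn
  · -- at most one variable: all minors vanish
    have hsub : Subsingleton (Fin n) := by
      rw [Fin.subsingleton_iff_le_one]; omega
    have hz : ∀ F G : Fin n → MvPolynomial (Fin n) k, I2 F G = ⊥ := by
      intro F G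
      unfold I2
      rw [Ideal.span_eq_bot]
      rintro p ⟨i, j, rfl⟩
      rw [Subsingleton.elim i j, sub_self]
    refine ⟨1, fun _ => 1, fun _ => 1, fun _ => one_pos, fun _ => one_pos, ?_⟩
    rw [hz]
    rw [hz] at hI
    exact hI
  · choose df hdf hf using hf
    choose dg hdg hg using hg
    obtain ⟨l, m, π, hl, hm, hI2⟩ := monomial_form ha ⟨⟨0, by omega⟩, ⟨1, by omega⟩, by simp⟩
      f g df dg hf hg hdf hdg hI
    exact cond2_of_form hn ha l m π hl hm hI2

theorem cond2_imp_cond1 {k : Type*} [Field k] {n : ℕ} {a : Fin n → ℕ}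
    (ha : ∀ i, 0 < a i) (h : Cond2 k a) : Cond1 k a := by
  obtain ⟨σ, l, m, hl, hm, hI⟩ := h
  rw [transport] at hI
  refine ⟨_, _, ?_, ?_, hI⟩
  · intro i
    refine ⟨l i * a (σ i), Nat.mul_pos (hl i) (ha _), ?_⟩
    simp only [map_pow, renameEquiv_apply, rename_X]
    simpa using (isWeightedHomogeneous_X k a (σ i)).pow (l i)
  · intro i
    refine ⟨m (finRotate n i) * a (σ (finRotate n i)), Nat.mul_pos (hm _) (ha _), ?_⟩
    simp only [map_pow, renameEquiv_apply, rename_X]
    simpa using (isWeightedHomogeneous_X k a (σ (finRotate n i))).pow (m (finRotate n i))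

theorem cond1_iff_cond2 {k : Type*} [Field k] {n : ℕ} {a : Fin n → ℕ} (ha : ∀ i, 0 < a i) :
    Cond1 k a ↔ Cond2 k a :=
  ⟨cond1_imp_cond2 ha, cond2_imp_cond1 ha⟩

end Q122.DetNS
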