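import Pool.Agent.Q122.DetNS.Side

/-!
# From homogeneous matrices to monomial matrices
-/

open MvPolynomial

namespace Q122.DetNS

variable {k : Type*} [Field k] {ι : Type*} [Fintype ι] {a : ι → ℕ}

theorem cross (f g : ι → MvPolynomial ι k) (df dg : ι → ℕ)
    (hf : ∀ i, IsWeightedHomogeneous a (f i) (df i)) (hg : ∀ i, IsWeightedHomogeneous a (g i) (dg i))
    (hεf : ∀ j, eval 1 (f j) ≠ 0) (hεg : ∀ j, eval 1 (g j) ≠ 0)
    (hI : I2 f g ≤ IH k a) (i j : ι) :
    df i + dg j = df j + dg i ∧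
      eval 1 (f i) * eval 1 (g j) = eval 1 (f j) * eval 1 (g i) := by
  have h1 : f i * g j - f j * g i ∈ IH k a := hI (Ideal.subset_span ⟨i, j, rfl⟩)
  unfold IH at h1
  rw [RingHom.mem_ker, map_sub, map_mul, map_mul, phi_of_homog a (hf i), phi_of_homog a (hg j),
    phi_of_homog a (hf j), phi_of_homog a (hg i), sub_eq_zero] at h1
  have h2 : Polynomial.C (eval 1 (f i) * eval 1 (g j)) * Polynomial.X ^ (df i + dg j) =
      Polynomial.C (eval 1 (f j) * eval 1 (g i)) * (Polynomial.X : Polynomial k) ^ (df j + dg i) := by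
    rw [Polynomial.C_mul, Polynomial.C_mul, pow_add, pow_add]
    linear_combination h1
  have hne1 : eval 1 (f i) * eval 1 (g j) ≠ 0 := mul_ne_zero (hεf i) (hεg j)
  have hne2 : eval 1 (f j) * eval 1 (g i) ≠ 0 := mul_ne_zero (hεf j) (hεg i)
  have hd : df i + dg j = df j + dg i := by
    have := congrArg Polynomial.natDegree h2
    rwa [Polynomial.natDegree_C_mul_X_pow _ _ hne1, Polynomial.natDegree_C_mul_X_pow _ _ hne2] at this
  refine ⟨hd, ?_⟩
  have := congrArg (fun p => Polynomial.coeff p (df i + dg j)) h2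
  simp only [Polynomial.coeff_C_mul_X_pow, hd, if_true] at this
  exact this

theorem monomial_form (ha : ∀ i, 0 < a i) (hι : ∃ i j : ι, i ≠ j)
    (f g : ι → MvPolynomial ι k) (df dg : ι → ℕ)
    (hf : ∀ i, IsWeightedHomogeneous a (f i) (df i)) (hg : ∀ i, IsWeightedHomogeneous a (g i) (dg i))
    (hdf : ∀ i, 0 < df i) (hdg : ∀ i, 0 < dg i) (hI : IH k a = I2 f g) :
    ∃ (l m : ι → ℕ) (π : Equiv.Perm ι), (∀ i, 0 < l i) ∧ (∀ i, 0 < m i) ∧
      IH k a = I2 (fun i => (X (π i) : MvPolynomial ι k) ^ l (π i)) (fun i => X i ^ m i) := by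
  classical
  have hIg : IH k a ≤ maxI * Ideal.span (Set.range g) := by
    rw [hI]
    unfold I2
    rw [Ideal.span_le]
    rintro p ⟨i, j, rfl⟩
    refine Ideal.sub_mem _ ?_ ?_
    · exact Ideal.mul_mem_mul (mem_maxI (hf i) (hdf i)) (Ideal.subset_span ⟨j, rfl⟩)
    · exact Ideal.mul_mem_mul (mem_maxI (hf j) (hdf j)) (Ideal.subset_span ⟨i, rfl⟩)
  have hIf : IH k a ≤ maxI * Ideal.span (Set.range f) := by
    rw [hI]
    unfold I2
    rw [Ideal.span_le]
    rintro p ⟨i, j, rfl⟩
    refine Ideal.sub_mem _ ?_ ?_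
    · rw [mul_comm (f i)]
      exact Ideal.mul_mem_mul (mem_maxI (hg j) (hdg j)) (Ideal.subset_span ⟨i, rfl⟩)
    · rw [mul_comm (f j)]
      exact Ideal.mul_mem_mul (mem_maxI (hg i) (hdg i)) (Ideal.subset_span ⟨j, rfl⟩)
  obtain ⟨m, ρg, hm, hρg, hεg⟩ := side ha hι g dg hg hdg hIg
  obtain ⟨l, ρf, hl, hρf, hεf⟩ := side ha hι f df hf hdf hIf
  have hcross := cross f g df dg hf hg hεf hεg (le_of_eq hI.symm)
  refine ⟨l, m, ρg.trans ρf.symm, hl, hm, ?_⟩
  set π : Equiv.Perm ι := ρg.trans ρf.symm with hπ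
  have hπ2 : ∀ i, ρf (π i) = ρg i := by
    intro i
    rw [hπ]; simp
  have hA : ∀ i, IsWeightedHomogeneous a ((X (π i) : MvPolynomial ι k) ^ l (π i)) (df (ρg i)) := by
    intro i
    have := (isWeightedHomogeneous_X k a (π i)).pow (l (π i))
    rw [← hπ2 i, hρf (π i)]
    simpa using this
  have hB : ∀ i, IsWeightedHomogeneous a ((X i : MvPolynomial ι k) ^ m i) (dg (ρg i)) := by
    intro i
    have := (isWeightedHomogeneous_X k a i).pow (m i)
    rw [hρg i]
    simpa using this
  set A : ι → MvPolynomial ι k := fun i => (X (π i) : MvPolynomial ι k) ^ l (π i) with hAdef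
  set B : ι → MvPolynomial ι k := fun i => (X i : MvPolynomial ι k) ^ m i with hBdef
  have hεA : ∀ i, eval 1 (A i) = 1 := by intro i; simp [hAdef]
  have hεB : ∀ i, eval 1 (B i) = 1 := by intro i; simp [hBdef]
  have hle1 : I2 A B ≤ IH k a := by
    unfold I2
    rw [Ideal.span_le]
    rintro p ⟨i, j, rfl⟩
    have h1 : IsWeightedHomogeneous a (A i * B j) (df (ρg i) + dg (ρg j)) := (hA i).mul (hB j)
    have h2 : IsWeightedHomogeneous a (A j * B i) (df (ρg i) + dg (ρg j)) := by
      rw [(hcross (ρg i) (ρg j)).1]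
      exact (hA j).mul (hB i)
    refine (mem_IH_iff a (h1.sub h2)).mpr ?_
    simp [hεA, hεB]
  refine le_antisymm ?_ hle1
  -- generators indexed through `ρg`
  let r : ι × ι → MvPolynomial ι k := fun s => f (ρg s.1) * g (ρg s.2) - f (ρg s.2) * g (ρg s.1)
  let e : ι × ι → ℕ := fun s => df (ρg s.1) + dg (ρg s.2)
  have hr : ∀ s, IsWeightedHomogeneous a (r s) (e s) := by
    intro s
    refine ((hf _).mul (hg _)).sub ?_
    show IsWeightedHomogeneous a _ (df (ρg s.1) + dg (ρg s.2))
    rw [(hcross (ρg s.1) (ρg s.2)).1]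
    exact (hf _).mul (hg _)
  have hspan : IH k a = Ideal.span (Set.range r) := by
    rw [hI]
    unfold I2
    congr 1
    ext p
    constructor
    · rintro ⟨i, j, rfl⟩
      exact ⟨(ρg.symm i, ρg.symm j), by simp [r]⟩
    · rintro ⟨s, rfl⟩
      exact ⟨_, _, rfl⟩
  have hmain : ∀ d, ∀ p, IsWeightedHomogeneous a p d → p ∈ IH k a → p ∈ I2 A B := by
    intro d
    induction d using Nat.strong_induction_on with
    | _ d ih =>
      intro p hp hpI
      rw [hspan] at hpI
      refine comp_span_mem a r e hr hp hpI ?_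
      intro s hs
      obtain ⟨i, j⟩ := s
      simp only [e] at hs
      have hpos1 := hdf (ρg i)
      have hpos2 := hdg (ρg j)
      have hpos3 := hdf (ρg j)
      have hpos4 := hdg (ρg i)
      have hc1 := (hcross (ρg i) (ρg j)).1
      have hc2 := (hcross (ρg i) (ρg j)).2
      have hξ : ∀ i', df (ρg i') < d → f (ρg i') - C (eval 1 (f (ρg i'))) * A i' ∈ I2 A B := by
        intro i' hi'
        have h1 : IsWeightedHomogeneous a (C (eval 1 (f (ρg i'))) * A i') (df (ρg i')) :=
          (hA i').C_mul _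
        refine ih _ hi' _ ((hf _).sub h1) ?_
        refine (mem_IH_iff a ((hf _).sub h1)).mpr ?_
        simp [hεA]
      have hη : ∀ i', dg (ρg i') < d → g (ρg i') - C (eval 1 (g (ρg i'))) * B i' ∈ I2 A B := by
        intro i' hi'
        have h1 : IsWeightedHomogeneous a (C (eval 1 (g (ρg i'))) * B i') (dg (ρg i')) :=
          (hB i').C_mul _
        refine ih _ hi' _ ((hg _).sub h1) ?_
        refine (mem_IH_iff a ((hg _).sub h1)).mpr ?_
        simp [hεB]
      have hξi := hξ i (by omega)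
      have hξj := hξ j (by omega)
      have hηi := hη i (by omega)
      have hηj := hη j (by omega)
      have hmin : A i * B j - A j * B i ∈ I2 A B := Ideal.subset_span ⟨i, j, rfl⟩
      have hid : r (i, j) = C (eval 1 (f (ρg i)) * eval 1 (g (ρg j))) * (A i * B j - A j * B i) +
          (C (eval 1 (f (ρg i))) * A i) * (g (ρg j) - C (eval 1 (g (ρg j))) * B j) +
          g (ρg j) * (f (ρg i) - C (eval 1 (f (ρg i))) * A i) -
          (C (eval 1 (f (ρg j))) * A j) * (g (ρg i) - C (eval 1 (g (ρg i))) * B i) -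
          g (ρg i) * (f (ρg j) - C (eval 1 (f (ρg j))) * A j) := by
        have hc3 : (C (eval 1 (f (ρg i))) * C (eval 1 (g (ρg j))) : MvPolynomial ι k) =
            C (eval 1 (f (ρg j))) * C (eval 1 (g (ρg i))) := by
          rw [← C_mul, ← C_mul, hc2]
        simp only [r, C_mul]
        linear_combination (A j * B i) * hc3
      rw [hid]
      refine Ideal.sub_mem _ (Ideal.sub_mem _ (Ideal.add_mem _ (Ideal.add_mem _ ?_ ?_) ?_) ?_) ?_
      · exact Ideal.mul_mem_left _ _ hmin
      · exact Ideal.mul_mem_left _ _ hηj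
      · exact Ideal.mul_mem_left _ _ hξi
      · exact Ideal.mul_mem_left _ _ hηi
      · exact Ideal.mul_mem_left _ _ hξj
  rw [hspan, Ideal.span_le]
  rintro p ⟨s, rfl⟩
  refine hmain (e s) _ (hr s) ?_
  rw [hspan]
  exact Ideal.subset_span ⟨s, rfl⟩

/-- The permutation of a monomial matrix is a single cycle: no invariant proper subset. -/
theorem no_invariant (ha : ∀ i, 0 < a i) (l m : ι → ℕ) (π : Equiv.Perm ι)
    (hl : ∀ i, 0 < l i) (hm : ∀ i, 0 < m i)
    (hI : IH k a = I2 (fun i => (X (π i) : MvPolynomial ι k) ^ l (π i)) (fun i => X i ^ m i))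
    (K : Set ι) (hK : ∀ i, i ∈ K ↔ π i ∈ K) (i0 j0 : ι) (hi0 : i0 ∈ K) : j0 ∈ K := by
  classical
  by_contra hj0
  let ψ : MvPolynomial ι k →ₐ[k] Polynomial k :=
    aeval (fun i => if i ∈ K then 0 else (Polynomial.X : Polynomial k) ^ a i)
  have hψ : IH k a ≤ RingHom.ker ψ := by
    have hle := le_of_eq hI.symm
    rw [hI]
    unfold I2
    rw [Ideal.span_le]
    rintro p ⟨i, j, rfl⟩
    have h0 : (X (π i) : MvPolynomial ι k) ^ l (π i) * X j ^ m j -
        X (π j) ^ l (π j) * X i ^ m i ∈ IH k a := hle (Ideal.subset_span ⟨i, j, rfl⟩)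
    simp only [SetLike.mem_coe, RingHom.mem_ker, map_sub, map_mul, map_pow, ψ, aeval_X]
    by_cases hi : i ∈ K
    · have hi' := (hK i).mp hi
      simp [hi, hi', (hl (π i)).ne', (hm i).ne']
    · by_cases hj : j ∈ K
      · have hj' := (hK j).mp hj
        simp [hj, hj', (hl (π j)).ne', (hm j).ne']
      · have hi' : π i ∉ K := fun h => hi ((hK i).mpr h)
        have hj' : π j ∉ K := fun h => hj ((hK j).mpr h)
        simp only [hi, hj, hi', hj', if_false]
        unfold IH at h0
        rw [RingHom.mem_ker] at h0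
        simpa [phi] using h0
  have h1 : (monomial (Finsupp.single i0 (a j0)) (1 : k) - monomial (Finsupp.single j0 (a i0)) 1) ∈
      IH k a := by
    refine monomial_sub_mem a (d := a i0 * a j0) ?_ ?_
    · simp [Finsupp.weight_single, mul_comm]
    · simp [Finsupp.weight_single]
  have h2 := hψ h1
  rw [RingHom.mem_ker, ← X_pow_eq_monomial, ← X_pow_eq_monomial] at h2
  simp only [map_sub, map_pow, ψ, aeval_X, hi0, hj0, if_true, if_false] at h2
  rw [zero_pow (ha j0).ne', zero_sub, neg_eq_zero, ← pow_mul] at h2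
  exact pow_ne_zero _ Polynomial.X_ne_zero h2

end Q122.DetNS
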