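import Pool.Agent.Q122.DetNS.Cond
import Pool.Agent.Q122.DetNS.Bin

/-!
# Semigroup side: pseudo-Frobenius numbers in arithmetic progression
-/

open MvPolynomial

namespace Q122.DetNS

/-- The integer `x` lies in the semigroup `⟨a_1, …, a_n⟩`. -/
def InH {n : ℕ} (a : Fin n → ℕ) (x : ℤ) : Prop := ∃ v : Fin n → ℕ, x = ∑ i, (v i : ℤ) * a i

/-- The set of pseudo-Frobenius numbers. -/
def PF {n : ℕ} (a : Fin n → ℕ) : Set ℤ :=
  {x | ¬ InH a x ∧ ∀ y, InH a y → 0 < y → InH a (x + y)}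

/-- `a_1, …, a_n` is the minimal generating system of a numerical semigroup: the `a_i` are
positive, their greatest common divisor is `1`, and no `a_i` is a sum of the others. -/
def IsMinGen {n : ℕ} (a : Fin n → ℕ) : Prop :=
  Finset.univ.gcd a = 1 ∧
    ∀ i, 0 < a i ∧ ¬ ∃ v : Fin n → ℕ, v i = 0 ∧ a i = ∑ j, v j * a j

/-- `PF(H) = {h + α, …, h + (n-1) α}` with `α > 0`. -/
def IsAP {n : ℕ} (a : Fin n → ℕ) (h α : ℤ) : Prop :=
  0 < α ∧ PF a = {x | ∃ j : ℕ, 1 ≤ j ∧ j < n ∧ x = h + j * α}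

section basic

variable {n : ℕ} {a : Fin n → ℕ}

theorem InH.zero : InH a 0 := ⟨0, by simp⟩

theorem InH.add {x y : ℤ} (hx : InH a x) (hy : InH a y) : InH a (x + y) := by
  obtain ⟨v, rfl⟩ := hx
  obtain ⟨w, rfl⟩ := hy
  refine ⟨v + w, ?_⟩
  rw [← Finset.sum_add_distrib]
  refine Finset.sum_congr rfl ?_
  intro i _
  rw [Pi.add_apply]; push_cast; ring

theorem InH.smul (c : ℕ) (i : Fin n) : InH a ((c : ℤ) * a i) := by
  classical
  refine ⟨Pi.single i c, ?_⟩
  rw [Finset.sum_eq_single i]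
  · simp
  · intro j _ hj
    rw [Pi.single_eq_of_ne hj]; simp
  · simp

theorem InH.gen (i : Fin n) : InH a (a i) := by
  have := InH.smul (a := a) 1 i
  simpa using this

theorem InH.nonneg {x : ℤ} (hx : InH a x) : 0 ≤ x := by
  obtain ⟨v, rfl⟩ := hx
  exact Finset.sum_nonneg (fun i _ => by positivity)

theorem InH.sum {κ : Type*} (s : Finset κ) (f : κ → ℤ) (h : ∀ i ∈ s, InH a (f i)) :
    InH a (∑ i ∈ s, f i) := by
  classical
  induction s using Finset.induction_on with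
  | empty => simpa using InH.zero
  | insert b s hb ih =>
    rw [Finset.sum_insert hb]
    exact (h b (Finset.mem_insert_self _ _)).add
      (ih (fun i hi => h i (Finset.mem_insert_of_mem hi)))

theorem exists_sub {x : ℤ} (hx : InH a x) (h0 : x ≠ 0) : ∃ i, InH a (x - a i) := by
  classical
  obtain ⟨v, rfl⟩ := hx
  by_cases hv : ∀ i, v i = 0
  · exfalso; apply h0; simp [hv]
  push Not at hv
  obtain ⟨i, hi⟩ := hv
  refine ⟨i, v - Pi.single i 1, ?_⟩
  have h1 : ∀ j, ((v - Pi.single i 1 : Fin n → ℕ) j : ℤ) * a j =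
      (v j : ℤ) * a j - (if j = i then (a i : ℤ) else 0) := by
    intro j
    by_cases hj : j = i
    · subst hj
      simp only [Pi.sub_apply, Pi.single_eq_same, if_true]
      have : 1 ≤ v j := Nat.one_le_iff_ne_zero.mpr hi
      push_cast [this]
      ring
    · simp [hj, Pi.single_eq_of_ne hj]
  simp only [h1]
  rw [Finset.sum_sub_distrib]
  simp

theorem exists_large (hg : Finset.univ.gcd a = 1) : ∃ N : ℤ, ∀ x, N ≤ x → InH a x := by
  obtain ⟨N, hN⟩ := Nat.exists_mem_closure_of_ge (Set.range a)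
  refine ⟨max N 0, ?_⟩
  intro x hx
  obtain ⟨m, rfl⟩ := Int.eq_ofNat_of_zero_le (le_trans (le_max_right _ _) hx)
  have hm : N ≤ m := by
    have := le_trans (le_max_left _ _) hx
    exact_mod_cast this
  have hdvd : Nat.setGcd (Set.range a) ∣ m := by
    have h1 : Nat.setGcd (Set.range a) ∣ Finset.univ.gcd a :=
      Finset.dvd_gcd (fun i _ => Nat.setGcd_dvd_of_mem (Set.mem_range_self i))
    rw [hg] at h1
    exact h1.trans (one_dvd m)
  have h2 := hN m hm hdvd
  have h3 : ∀ y ∈ AddSubmonoid.closure (Set.range a), InH a (y : ℤ) := by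
    intro y hy
    induction hy using AddSubmonoid.closure_induction with
    | mem y hy =>
      obtain ⟨i, rfl⟩ := hy
      exact InH.gen i
    | zero => simpa using InH.zero
    | add y z _ _ hy hz =>
      push_cast
      exact hy.add hz
  exact h3 m h2

theorem exists_pf (hg : Finset.univ.gcd a = 1) {x : ℤ} (hx : ¬ InH a x) :
    ∃ u, InH a u ∧ x + u ∈ PF a := by
  obtain ⟨N, hN⟩ := exists_large hg
  obtain ⟨y, ⟨hy1, hy2⟩, hy3⟩ := Int.exists_greatest_of_bdd
    (P := fun y => ¬ InH a y ∧ InH a (y - x)) ⟨N, by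
      intro z hz
      by_contra hcon
      push Not at hcon
      exact hz.1 (hN z hcon.le)⟩ ⟨x, hx, by simpa using InH.zero⟩
  refine ⟨y - x, hy2, ?_⟩
  have e : x + (y - x) = y := by ring
  rw [e]
  refine ⟨hy1, ?_⟩
  intro z hz hz0
  by_contra hcon
  have := hy3 (y + z) ⟨hcon, by
    have := hy2.add hz
    have e2 : y + z - x = y - x + z := by ring
    rw [e2]; exact this⟩
  omega

end basic

section ap

variable {n : ℕ} {a : Fin n → ℕ} {h α : ℤ}

theorem IsAP.not_mem (hAP : IsAP a h α) {j : ℕ} (h1 : 1 ≤ j) (h2 : j < n) :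
    ¬ InH a (h + j * α) := by
  have : h + j * α ∈ PF a := by
    rw [hAP.2]
    exact ⟨j, h1, h2, rfl⟩
  exact this.1

/-- If `u ∈ H` and `u + α ∉ H`, then `h - u ∈ H`. -/
theorem IsAP.dual (hAP : IsAP a h α) (hg : Finset.univ.gcd a = 1) {u : ℤ} (hu : InH a u)
    (hu2 : ¬ InH a (u + α)) : InH a (h - u) := by
  obtain ⟨w, hw, hw2⟩ := exists_pf hg hu2
  rw [hAP.2] at hw2
  obtain ⟨j, hj1, hj2, hj⟩ := hw2
  rcases Nat.lt_or_ge j 2 with hj3 | hj3
  · have : j = 1 := by omega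
    subst this
    have e : h - u = w := by push_cast at hj; linarith
    rw [e]; exact hw
  · exfalso
    have h3 := hAP.not_mem (j := j - 1) (by omega) (by omega)
    apply h3
    have e : h + ((j - 1 : ℕ) : ℤ) * α = u + w := by
      have : ((j - 1 : ℕ) : ℤ) = j - 1 := by
        push_cast [show 1 ≤ j by omega]; ring
      rw [this]; linarith
    rw [e]
    exact hu.add hw

/-- The gap property. -/
theorem IsAP.gap (hAP : IsAP a h α) (hg : Finset.univ.gcd a = 1) {u : ℤ} (hu : InH a u)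
    (hu2 : ¬ InH a (u + α)) {r : ℕ} (h1 : 1 ≤ r) (h2 : r < n) : ¬ InH a (u + r * α) := by
  intro hcon
  have h3 := hAP.dual hg hu hu2
  apply hAP.not_mem h1 h2
  have e : h + r * α = (u + r * α) + (h - u) := by ring
  rw [e]
  exact hcon.add h3

theorem IsAP.alpha_not (hAP : IsAP a h α) (hn : 3 ≤ n) : ¬ InH a α := by
  intro hcon
  have h1 : h + ((1 : ℕ) : ℤ) * α ∈ PF a := by
    rw [hAP.2]; exact ⟨1, le_refl _, by omega, rfl⟩
  have h2 := h1.2 α hcon hAP.1
  apply hAP.not_mem (j := 2) (by omega) (by omega)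
  have e : h + ((2 : ℕ) : ℤ) * α = h + ((1 : ℕ) : ℤ) * α + α := by push_cast; ring
  rw [e]; exact h2

end ap

/-- From the relations `m_i a_i + α = l_{π i} a_{π i}` to condition (2). -/
theorem finish {k : Type*} [Field k] {n : ℕ} (hn : 2 ≤ n) {a : Fin n → ℕ} (ha : ∀ i, 0 < a i)
    {α : ℤ} (hα : 0 < α) (l m : Fin n → ℕ) (π : Equiv.Perm (Fin n)) (hl : ∀ i, 0 < l i)
    (hm : ∀ i, 0 < m i) (hrel : ∀ i, (m i : ℤ) * a i + α = l (π i) * a (π i))
    (hno : ¬ InH a (∑ i, ((m i : ℤ) - 1) * a i + (n - 1 : ℕ) * α)) : Cond2 k a := by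
  obtain ⟨b, rfl⟩ := Int.eq_ofNat_of_zero_le hα.le
  have hb : 0 < b := by exact_mod_cast hα
  refine cond2_of_form hn ha l m π hl hm ?_
  refine IH_eq_I2 ha l m π b hb hl ?_ ?_
  · intro i
    have := hrel i
    exact_mod_cast this
  · rintro ⟨v, hv⟩
    apply hno
    refine ⟨v, ?_⟩
    rw [weight_eq_sum] at hv
    have e1 : ∑ i, ((v i : ℤ)) * a i = ((∑ i, v i * a i : ℕ) : ℤ) := by push_cast; rfl
    have e2 : ((∑ i, (l i - 1) * a i : ℕ) : ℤ) = ∑ i, ((l i : ℤ) - 1) * a i := by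
      push_cast
      refine Finset.sum_congr rfl ?_
      intro i _
      rw [Nat.cast_sub (hl i)]
      simp
    have e3 : ∑ i, ((l i : ℤ) - 1) * a i = ∑ i, ((l (π i) : ℤ) - 1) * a (π i) :=
      (Equiv.sum_comp π (fun i => ((l i : ℤ) - 1) * a i)).symm
    have e4 : ∑ i, ((l (π i) : ℤ) - 1) * a (π i) = ∑ i, ((m i : ℤ) * a i + b - a (π i)) := by
      refine Finset.sum_congr rfl ?_
      intro i _
      rw [hrel i]; ring
    have e5 : ∑ i, ((m i : ℤ) * a i + b - a (π i)) = ∑ i, ((m i : ℤ) - 1) * a i + n * b := by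
      rw [Finset.sum_sub_distrib, Finset.sum_add_distrib, Equiv.sum_comp π (fun i => (a i : ℤ))]
      simp only [sub_mul, Finset.sum_sub_distrib, one_mul, Finset.sum_const, Finset.card_univ,
        Fintype.card_fin, nsmul_eq_mul]
      ring
    have e6 : ((n - 1 : ℕ) : ℤ) = n - 1 := by
      push_cast [show 1 ≤ n by omega]; ring
    rw [e1, e6]
    have e7 : ((∑ i, v i * a i : ℕ) : ℤ) + b = ∑ i, ((m i : ℤ) - 1) * a i + n * b := by
      rw [← e5, ← e4, ← e3, ← e2, ← hv]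
      push_cast
      rfl
    linarith

end Q122.DetNS
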