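import Pool.Agent.Q122.DetNS.Basic

/-!
# One row of the matrix: the ideal of its entries is generated by powers of the variables
-/

open MvPolynomial

namespace Q122.DetNS

variable {k : Type*} [Field k] {ι : Type*} [Fintype ι] {a : ι → ℕ}

/-- The set of exponents of the monomials in an ideal. -/
def expo (G : Ideal (MvPolynomial ι k)) : Set (ι →₀ ℕ) := {u | monomial u (1 : k) ∈ G}

/-- The monomial ideal generated by the monomials `x_l x^u`, `x^u ∈ G`. -/
noncomputable def plusI (G : Ideal (MvPolynomial ι k)) : Ideal (MvPolynomial ι k) :=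
  Ideal.span ((fun s => monomial s (1 : k)) '' {w | ∃ u ∈ expo G, ∃ l, w = Finsupp.single l 1 + u})

theorem maxI_mul_le (G : Ideal (MvPolynomial ι k)) :
    maxI * Ideal.span ((fun s => monomial s (1 : k)) '' expo G) ≤ plusI G := by
  unfold maxI plusI
  rw [Ideal.span_mul_span']
  refine Ideal.span_mono ?_
  rintro p ⟨x, ⟨l, rfl⟩, y, ⟨u, hu, rfl⟩, rfl⟩
  refine ⟨Finsupp.single l 1 + u, ⟨u, hu, l, rfl⟩, ?_⟩
  simp only [X, monomial_mul, one_mul]

theorem not_mem_plusI {G : Ideal (MvPolynomial ι k)} {i : ι} {m : ℕ}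
    (hmin : ∀ m' < m, (X i : MvPolynomial ι k) ^ m' ∉ G) {p : MvPolynomial ι k}
    (hp : p ∈ plusI G) (hsupp : Finsupp.single i m ∈ p.support) : False := by
  classical
  unfold plusI at hp
  rw [mem_ideal_span_monomial_image] at hp
  obtain ⟨w, ⟨u, hu, l, rfl⟩, hle⟩ := hp _ hsupp
  have hli : l = i := by
    by_contra hne
    have h1 := hle l
    simp only [Finsupp.coe_add, Pi.add_apply, Finsupp.single_eq_same] at h1
    rw [Finsupp.single_apply, if_neg (Ne.symm hne)] at h1
    omega
  subst hli
  have hm : u l + 1 ≤ m := by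
    have h1 := hle l
    simp only [Finsupp.coe_add, Pi.add_apply, Finsupp.single_eq_same] at h1
    omega
  have hu2 : u = Finsupp.single l (u l) := by
    ext j
    by_cases hj : j = l
    · subst hj; simp
    · have h1 := hle j
      simp only [Finsupp.coe_add, Pi.add_apply, Finsupp.single_apply, if_neg (Ne.symm hj)] at h1
      rw [Finsupp.single_apply, if_neg (Ne.symm hj)]
      omega
  refine hmin (u l) (by omega) ?_
  rw [X_pow_eq_monomial, ← hu2]
  exact hu

/-- Structure of one row. -/
theorem side (ha : ∀ i, 0 < a i) (hι : ∃ i j : ι, i ≠ j)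
    (g : ι → MvPolynomial ι k) (dg : ι → ℕ) (hg : ∀ i, IsWeightedHomogeneous a (g i) (dg i))
    (hdg : ∀ i, 0 < dg i) (hI : IH k a ≤ maxI * Ideal.span (Set.range g)) :
    ∃ (m : ι → ℕ) (ρ : Equiv.Perm ι), (∀ i, 0 < m i) ∧ (∀ i, dg (ρ i) = m i * a i) ∧
      (∀ j, eval 1 (g j) ≠ 0) := by
  classical
  set G := Ideal.span (Set.range g) with hG
  have hIG : IH k a ≤ G := hI.trans Ideal.mul_le_right
  -- all monomials of degree `dg j` are in `G` if `g j` is not in the kernel
  have hkey : ∀ j, eval 1 (g j) ≠ 0 → ∀ u : ι →₀ ℕ, Finsupp.weight a u = dg j →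
      monomial u (1 : k) ∈ G := by
    intro j hj u hu
    have h1 : IsWeightedHomogeneous a (monomial u (1 : k)) (dg j) :=
      isWeightedHomogeneous_monomial _ _ _ hu
    have h2 : IsWeightedHomogeneous a (C ((eval 1 (g j))⁻¹) * g j) (dg j) := (hg j).C_mul _
    have h3 : monomial u (1 : k) - C ((eval 1 (g j))⁻¹) * g j ∈ IH k a := by
      rw [mem_IH_iff a (h1.sub h2)]
      simp [eval_monomial, hj]
    have h4 := hIG h3
    have h5 : C ((eval 1 (g j))⁻¹) * g j ∈ G :=
      Ideal.mul_mem_left _ _ (Ideal.subset_span ⟨j, rfl⟩)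
    have := G.add_mem h4 h5
    simpa using this
  -- if `g j` is in the kernel, it is a combination of the `g l` of smaller degree
  have hlow : ∀ j, eval 1 (g j) = 0 → ∀ N : Ideal (MvPolynomial ι k),
      (∀ l, dg l < dg j → g l ∈ N) → g j ∈ N := by
    intro j hj N hN
    have hjI : g j ∈ IH k a := (mem_IH_iff a (hg j)).mpr hj
    have h1 := hI hjI
    have h2 : maxI * G ≤ Ideal.span (Set.range (fun s : ι × ι => (X s.1 : MvPolynomial ι k) * g s.2)) := by
      rw [hG]
      unfold maxI
      rw [Ideal.span_mul_span']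
      refine Ideal.span_mono ?_
      rintro p ⟨x, ⟨l, rfl⟩, y, ⟨u, rfl⟩, rfl⟩
      exact ⟨(l, u), rfl⟩
    refine comp_span_mem a (fun s : ι × ι => (X s.1 : MvPolynomial ι k) * g s.2)
      (fun s => a s.1 + dg s.2) ?_ (hg j) (h2 h1) ?_
    · intro s
      exact (isWeightedHomogeneous_X k a s.1).mul (hg s.2)
    · intro s hs
      refine N.mul_mem_left _ (hN s.2 ?_)
      have := ha s.1
      omega
  set M := Ideal.span ((fun s => monomial s (1 : k)) '' expo G) with hM
  have hgM : ∀ d, ∀ j, dg j = d → g j ∈ M := by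
    intro d
    induction d using Nat.strong_induction_on with
    | _ d ih =>
      intro j hj
      by_cases h0 : eval 1 (g j) = 0
      · refine hlow j h0 M ?_
        intro l hl
        exact ih (dg l) (by omega) l rfl
      · rw [hM, mem_ideal_span_monomial_image]
        intro u hu
        have hw : Finsupp.weight a u = dg j := hg j (mem_support_iff.mp hu)
        exact ⟨u, hkey j h0 u hw, le_refl _⟩
  have hGM : G ≤ M := by
    rw [hG, Ideal.span_le]
    rintro p ⟨j, rfl⟩
    exact hgM _ j rfl
  have hplus : maxI * G ≤ plusI G := (Ideal.mul_mono_right hGM).trans (maxI_mul_le G)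
  have hIplus : IH k a ≤ plusI G := hI.trans hplus
  -- some g j is not in the kernel
  obtain ⟨j0, hj0⟩ : ∃ j, eval 1 (g j) ≠ 0 := by
    by_contra hcon
    push Not at hcon
    have hz : ∀ d, ∀ j, dg j = d → g j ∈ (⊥ : Ideal (MvPolynomial ι k)) := by
      intro d
      induction d using Nat.strong_induction_on with
      | _ d ih =>
        intro j hj
        exact hlow j (hcon j) ⊥ (fun l hl => ih (dg l) (by omega) l rfl)
    have hG0 : G = ⊥ := by
      rw [hG, eq_bot_iff, Ideal.span_le]
      rintro p ⟨j, rfl⟩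
      exact hz _ j rfl
    obtain ⟨i, j, hij⟩ := hι
    have h1 : (monomial (Finsupp.single i (a j)) (1 : k) - monomial (Finsupp.single j (a i)) 1) ∈
        IH k a := by
      refine monomial_sub_mem a (d := a i * a j) ?_ ?_
      · simp [Finsupp.weight_single, mul_comm]
      · simp [Finsupp.weight_single]
    have h2 := hIG h1
    rw [hG0, Submodule.mem_bot, sub_eq_zero] at h2
    have h3 := congrArg (fun p => coeff (Finsupp.single i (a j)) p) h2
    simp only [coeff_monomial, if_true] at h3
    split_ifs at h3 with h4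
    · have := DFunLike.congr_fun h4 i
      simp [Ne.symm hij] at this
      have := ha j
      omega
    · exact one_ne_zero h3
  -- powers of variables in G
  have hpow : ∀ i, ∃ m, (X i : MvPolynomial ι k) ^ m ∈ G := by
    intro i
    refine ⟨dg j0, ?_⟩
    have h1 : IsWeightedHomogeneous a ((X i : MvPolynomial ι k) ^ (dg j0)) (a i * dg j0) := by
      have := (isWeightedHomogeneous_X k a i).pow (dg j0)
      simpa [mul_comm] using this
    have h2 : IsWeightedHomogeneous a (C ((eval 1 (g j0)) ^ (a i))⁻¹ * (g j0) ^ (a i)) (a i * dg j0) := by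
      have := ((hg j0).pow (a i)).C_mul ((eval 1 (g j0)) ^ (a i))⁻¹
      simpa using this
    have h3 : (X i : MvPolynomial ι k) ^ (dg j0) - C ((eval 1 (g j0)) ^ (a i))⁻¹ * (g j0) ^ (a i) ∈ IH k a := by
      rw [mem_IH_iff a (h1.sub h2)]
      simp [hj0]
    have h4 := hIG h3
    have h5 : C ((eval 1 (g j0)) ^ (a i))⁻¹ * (g j0) ^ (a i) ∈ G := by
      refine Ideal.mul_mem_left _ _ ?_
      have h6 : g j0 ∈ G := Ideal.subset_span ⟨j0, rfl⟩
      exact Ideal.pow_mem_of_mem _ h6 _ (ha i)
    have := G.add_mem h4 h5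
    simpa using this
  let m : ι → ℕ := fun i => Nat.find (hpow i)
  have hm1 : ∀ i, (X i : MvPolynomial ι k) ^ (m i) ∈ G := fun i => Nat.find_spec (hpow i)
  have hm2 : ∀ i, ∀ m' < m i, (X i : MvPolynomial ι k) ^ m' ∉ G := fun i m' h => Nat.find_min (hpow i) h
  have hGne : ∀ p ∈ G, constantCoeff p = 0 := by
    intro p hp
    have : G ≤ RingHom.ker (constantCoeff : MvPolynomial ι k →+* k) := by
      rw [hG, Ideal.span_le]
      rintro q ⟨j, rfl⟩
      simp only [SetLike.mem_coe, RingHom.mem_ker, constantCoeff_eq]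
      refine (hg j).coeff_eq_zero 0 ?_
      have := hdg j
      simp
      omega
    exact this hp
  have hmpos : ∀ i, 0 < m i := by
    intro i
    by_contra hcon
    have h0 : m i = 0 := by omega
    have := hGne _ (hm1 i)
    rw [h0] at this
    simp at this
  have hex : ∀ i, ∃ j, dg j = m i * a i ∧ eval 1 (g j) ≠ 0 := by
    intro i
    by_contra hcon
    push Not at hcon
    have hhom : IsWeightedHomogeneous a ((X i : MvPolynomial ι k) ^ (m i)) (m i * a i) := by
      have := (isWeightedHomogeneous_X k a i).pow (m i)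
      simpa using this
    have hin : (X i : MvPolynomial ι k) ^ (m i) ∈ plusI G := by
      obtain ⟨c, hc, hc2⟩ := comp_span a g dg hg hhom (hm1 i)
      rw [hc]
      refine Ideal.sum_mem _ ?_
      intro s _
      rcases hc2 s with h | ⟨h, h'⟩
      · rw [h, zero_mul]; exact Ideal.zero_mem _
      · rcases Nat.lt_or_ge (dg s) (m i * a i) with hlt | hge
        · have : c s ∈ (maxI : Ideal (MvPolynomial ι k)) := mem_maxI h' (by omega)
          exact hplus (Ideal.mul_mem_mul this (Ideal.subset_span ⟨s, rfl⟩))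
        · have heq : dg s = m i * a i := by omega
          have h0 := hcon s heq
          have hsI : g s ∈ IH k a := (mem_IH_iff a (hg s)).mpr h0
          exact Ideal.mul_mem_left _ _ (hIplus hsI)
    refine not_mem_plusI (hm2 i) hin ?_
    rw [X_pow_eq_monomial, support_monomial, if_neg one_ne_zero]
    simp
  choose jg hjg1 hjg2 using hex
  have hinj : Function.Injective jg := by
    intro i i' hii
    by_contra hne
    have hdeg : m i * a i = m i' * a i' := by rw [← hjg1 i, ← hjg1 i', hii]
    have h1 : (monomial (Finsupp.single i (m i)) (1 : k) - monomial (Finsupp.single i' (m i')) 1) ∈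
        IH k a := by
      refine monomial_sub_mem a (d := m i * a i) ?_ ?_
      · simp [Finsupp.weight_single]
      · simp [Finsupp.weight_single, hdeg]
    refine not_mem_plusI (hm2 i) (hIplus h1) ?_
    rw [mem_support_iff, coeff_sub, coeff_monomial, coeff_monomial, if_pos rfl, if_neg]
    · simp
    · intro h4
      have := DFunLike.congr_fun h4 i
      simp [Ne.symm hne] at this
      have := hmpos i
      omega
  have hbij : Function.Bijective jg := Finite.injective_iff_bijective.mp hinj
  refine ⟨m, Equiv.ofBijective jg hbij, hmpos, ?_, ?_⟩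
  · intro i
    exact hjg1 i
  · intro j
    obtain ⟨i, rfl⟩ := hbij.2 j
    exact hjg2 i

end Q122.DetNS
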